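import Mathlib
import Pool.Agent.H43.Skel4

set_option autoImplicit false

namespace Pool.Agent.Results.MP_fc7dfc_gt.SkeletonBound

open Real

/-- A space in its linear model: a subset of a real vector space together with its distance. -/
structure Model (W : Type) where
  /-- the points -/
  carrier : Set W
  /-- the geodesic distance -/
  dist : W → W → ℝ

/-- The sphere `S^d`: unit vectors of `ℝ^(d+1)`, with the angle as geodesic distance. -/
noncomputable def sphericalSpace (d : ℕ) : Model (EuclideanSpace ℝ (Fin (d + 1))) where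
  carrier := {x | ‖x‖ = 1}
  dist := fun x y => Real.arccos (inner ℝ x y)

/-- The Lorentz form `x₀ y₀ - x₁ y₁ - ... - x_d y_d` on `ℝ × ℝ^d`. -/
noncomputable def lor {d : ℕ} (x y : ℝ × EuclideanSpace ℝ (Fin d)) : ℝ :=
  x.1 * y.1 - inner ℝ x.2 y.2

/-- Hyperbolic space `H^d`: the upper sheet of the hyperboloid, with distance
`arcosh (lor x y)`. -/
noncomputable def hyperbolicSpace (d : ℕ) : Model (ℝ × EuclideanSpace ℝ (Fin d)) where
  carrier := {x | 0 < x.1 ∧ lor x x = 1}
  dist := fun x y => Real.arcosh (lor x y)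

section

variable {W : Type} [AddCommGroup W] [Module ℝ W] (X : Model W) {d : ℕ}

/-- The geodesic convex hull of the points `v i`, `i ∈ J`: the points of the space which are
nonnegative linear combinations of these `v i` in the linear model. -/
def hull (v : Fin (d + 1) → W) (J : Finset (Fin (d + 1))) : Set W :=
  {x | x ∈ X.carrier ∧ ∃ a : Fin (d + 1) → ℝ, (∀ i, 0 ≤ a i) ∧ x = ∑ i ∈ J, a i • v i}

/-- `v` lists the `d + 1` vertices of a simplex: points of the space not on a common totally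
geodesic hypersurface, i.e. linearly independent in the linear model. -/
structure IsSimplex (v : Fin (d + 1) → W) : Prop where
  mem : ∀ i, v i ∈ X.carrier
  indep : LinearIndependent ℝ v

/-- The simplex with vertices `v`. -/
def simplex (v : Fin (d + 1) → W) : Set W := hull X v Finset.univ

/-- The `k`-skeleton of the simplex with vertices `v`: the union of the hulls of all sets of
`k + 1` vertices. -/
def skeleton (v : Fin (d + 1) → W) (k : ℕ) : Set W :=
  {x | ∃ J : Finset (Fin (d + 1)), J.card = k + 1 ∧ x ∈ hull X v J}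

/-- The closed ball `B(c, R)`. -/
def closedBall (c : W) (R : ℝ) : Set W := {y | y ∈ X.carrier ∧ X.dist c y ≤ R}

/-- The open ball of radius `ρ` centred at `x`. -/
def openBall (x : W) (ρ : ℝ) : Set W := {y | y ∈ X.carrier ∧ X.dist x y < ρ}

/-- `T` lists the vertices of a regular simplex inscribed in `B(c, R)`. -/
structure IsRegularInscribed (T : Fin (d + 1) → W) (c : W) (R : ℝ) : Prop where
  isSimplex : IsSimplex X T
  vertices : ∀ i, X.dist c (T i) = R
  edges : ∃ e : ℝ, ∀ i j, i ≠ j → X.dist (T i) (T j) = e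

/-- `r` is the number `r_k(R)`: regular simplices inscribed in `B(c, R)` exist, and each `k`-face
of each of them has distance `r` from `c`. -/
def IsSkeletonRadius (d k : ℕ) (c : W) (R r : ℝ) : Prop :=
  (∃ T : Fin (d + 1) → W, IsRegularInscribed X T c R) ∧
  ∀ T : Fin (d + 1) → W, IsRegularInscribed X T c R →
    ∀ J : Finset (Fin (d + 1)), J.card = k + 1 → sInf (X.dist c '' hull X T J) = r

/-- If a simplex is contained in `B(c, R)`, then any open ball centred at a point of the simplex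
and disjoint from its `k`-skeleton has radius at most `r`. -/
def SkeletonBoundHolds (d k : ℕ) (c : W) (R r : ℝ) : Prop :=
  ∀ v : Fin (d + 1) → W, IsSimplex X v → simplex X v ⊆ closedBall X c R →
    ∀ x ∈ simplex X v, ∀ ρ : ℝ, Disjoint (openBall X x ρ) (skeleton X v k) → ρ ≤ r

theorem vertex_mem {v : Fin (d + 1) → W} (hv : IsSimplex X v) (i : Fin (d + 1)) :
    v i ∈ simplex X v := by
  refine ⟨hv.mem i, Pi.single i 1, fun j => ?_, ?_⟩
  · by_cases h : j = i
    · subst h; simp
    · simp [h]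
  · rw [Finset.sum_eq_single i]
    · simp
    · intro b _ hb; simp [hb]
    · simp

theorem radius_of_isLeast {T : Fin (d + 1) → W} {J : Finset (Fin (d + 1))} {c : W} {r : ℝ}
    (h1 : ∃ z ∈ hull X T J, X.dist c z = r) (h2 : ∀ z ∈ hull X T J, r ≤ X.dist c z) :
    sInf (X.dist c '' hull X T J) = r := by
  apply IsLeast.csInf_eq
  constructor
  · obtain ⟨z, hz, hzr⟩ := h1
    exact ⟨z, hz, hzr⟩
  · rintro _ ⟨z, hz, rfl⟩
    exact h2 z hz

end

/-- Explicit value of `r_k(R)` in `S^d`. -/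
noncomputable def rSph (d k : ℕ) (R : ℝ) : ℝ :=
  Real.arccos (cos R / √(cos R ^ 2 + ((d : ℝ) - k) / (d * (k + 1)) * sin R ^ 2))

/-- Explicit value of `r_k(R)` in `H^d`. -/
noncomputable def rHyp (d k : ℕ) (R : ℝ) : ℝ :=
  Real.arcosh (cosh R / √(cosh R ^ 2 - ((d : ℝ) - k) / (d * (k + 1)) * sinh R ^ 2))

open Pool.Agent.H43.Skel in
theorem formula (d k : ℕ) {C : ℝ} (hC : 0 < C) :
    1 / √(tt ((d + 1 : ℕ) : ℝ) ((k + 1 : ℕ) : ℝ) C) =
      C / √(C ^ 2 + ((d : ℝ) - k) / (d * (k + 1)) * (1 - C ^ 2)) := by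
  have h1 : C ^ 2 + ((d : ℝ) - k) / (d * (k + 1)) * (1 - C ^ 2) =
      C ^ 2 * tt ((d + 1 : ℕ) : ℝ) ((k + 1 : ℕ) : ℝ) C := by
    have ha : aa ((d + 1 : ℕ) : ℝ) ((k + 1 : ℕ) : ℝ) =
        ((d : ℝ) - (k : ℝ)) / ((d : ℝ) * ((k : ℝ) + 1)) := by
      rw [aa]; push_cast
      congr 1 <;> ring
    rw [tt, ha]
    have : C ^ 2 * (1 + ((d : ℝ) - k) / (d * (k + 1)) * (1 / C ^ 2 - 1)) =
        C ^ 2 + ((d : ℝ) - k) / (d * (k + 1)) * (C ^ 2 * (1 / C ^ 2) - C ^ 2) := by ring
    rw [this, mul_one_div_cancel (by positivity)]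
  rw [h1, Real.sqrt_mul (by positivity), Real.sqrt_sq hC.le]
  field_simp

open Pool.Agent.H43.Skel in
theorem sph_case {d k : ℕ} (hk : k < d) {R : ℝ} (hR0 : 0 < R) (hR1 : R < π / 2)
    {c : EuclideanSpace ℝ (Fin (d + 1))} (hc : c ∈ (sphericalSpace d).carrier) :
    IsSkeletonRadius (sphericalSpace d) d k c R (rSph d k R) ∧
    SkeletonBoundHolds (sphericalSpace d) d k c R (rSph d k R) := by
  have hd : 0 < d := by omega
  have hd' : (0 : ℝ) < d := by exact_mod_cast hd
  have hpi := Real.pi_pos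
  have hmem : ∀ x : EuclideanSpace ℝ (Fin (d + 1)), x ∈ (sphericalSpace d).carrier ↔
      inner ℝ x x = (1 : ℝ) := by
    intro x
    change ‖x‖ = 1 ↔ _
    rw [real_inner_self_eq_norm_sq]
    constructor
    · intro h; rw [h]; norm_num
    · intro h
      nlinarith [norm_nonneg x]
  have hcc : inner ℝ c c = (1 : ℝ) := (hmem c).1 hc
  have hbound : ∀ x ∈ (sphericalSpace d).carrier, ∀ y ∈ (sphericalSpace d).carrier,
      -1 ≤ inner ℝ x y ∧ inner ℝ x y ≤ (1 : ℝ) := by
    intro x hx y hy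
    have h := abs_real_inner_le_norm x y
    change ‖x‖ = 1 at hx
    change ‖y‖ = 1 at hy
    rw [hx, hy, mul_one] at h
    exact abs_le.1 h
  set C := cos R with hC
  have hC0 : 0 < C := Real.cos_pos_of_mem_Ioo ⟨by linarith, hR1⟩
  have hC1 : C < 1 := by
    rw [← Real.cos_zero]
    exact Real.cos_lt_cos_of_nonneg_of_le_pi (le_refl 0) (by linarith) hR0
  have hr : rSph d k R = arccos (1 / √(tt ((d + 1 : ℕ) : ℝ) ((k + 1 : ℕ) : ℝ) C)) := by
    rw [rSph, formula d k hC0, ← hC, Real.sin_sq, ← hC]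
  rw [hr]
  constructor
  · constructor
    · obtain ⟨T, hT1, hT2, hT3⟩ := sph_exists_regular hd
        (by rw [finrank_euclideanSpace_fin]) hcc hC0 hC1
      refine ⟨T, ⟨⟨fun i => (hmem _).2 (hT1 i), ?_⟩, fun i => ?_,
        ⟨arccos (((d + 1) * C ^ 2 - 1) / (d : ℝ)), fun i j hij => ?_⟩⟩⟩
      · apply reg_linearIndependent (innerₗ _) T (((d + 1) * C ^ 2 - 1) / (d : ℝ)) hT1 hT3
        · intro h
          rw [div_eq_iff hd'.ne'] at h
          have h1 : ((d : ℝ) + 1) * (1 - C ^ 2) = 0 := by linarith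
          have h2 : 0 < 1 - C ^ 2 := by nlinarith
          have h3 : 0 < ((d : ℝ) + 1) * (1 - C ^ 2) := by positivity
          linarith
        · have : 1 + (d : ℝ) * (((d + 1) * C ^ 2 - 1) / (d : ℝ)) = (d + 1) * C ^ 2 := by
            field_simp; ring
          rw [this]
          positivity
      · change arccos (inner ℝ c (T i)) = R
        rw [hT2, hC]
        exact Real.arccos_cos hR0.le (by linarith)
      · change arccos (inner ℝ (T i) (T j)) = _
        rw [hT3 i j hij]
    · rintro T ⟨⟨hT1, hT2⟩, hT3, e, hT4⟩ J hJ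
      have hTT : ∀ i, innerₗ (EuclideanSpace ℝ (Fin (d + 1))) (T i) (T i) = 1 := fun i =>
        (hmem _).1 (hT1 i)
      have hcT : ∀ i, innerₗ (EuclideanSpace ℝ (Fin (d + 1))) c (T i) = C := by
        intro i
        have h := hT3 i
        change arccos (inner ℝ c (T i)) = R at h
        rw [innerₗ_apply_apply, hC, ← h]
        obtain ⟨h1, h2⟩ := hbound c hc (T i) (hT1 i)
        rw [Real.cos_arccos h1 h2]
      have hTm : ∀ i j, i ≠ j →
          innerₗ (EuclideanSpace ℝ (Fin (d + 1))) (T i) (T j) = cos e := by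
        intro i j hij
        have h := hT4 i j hij
        change arccos (inner ℝ (T i) (T j)) = e at h
        rw [innerₗ_apply_apply, ← h]
        obtain ⟨h1, h2⟩ := hbound (T i) (hT1 i) (T j) (hT1 j)
        rw [Real.cos_arccos h1 h2]
      have hnd : ∀ w : EuclideanSpace ℝ (Fin (d + 1)),
          (∀ i, innerₗ (EuclideanSpace ℝ (Fin (d + 1))) w (T i) = 0) → w = 0 := by
        intro w hw
        have hspan : Submodule.span ℝ (Set.range T) = ⊤ :=
          hT2.span_eq_top_of_card_eq_finrank'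
            (by rw [finrank_euclideanSpace_fin, Fintype.card_fin])
        have h0 : innerₗ (EuclideanSpace ℝ (Fin (d + 1))) w = 0 := by
          apply LinearMap.ext_on_range (v := T) hspan
          intro i
          rw [hw i, LinearMap.zero_apply]
        have h1 : innerₗ (EuclideanSpace ℝ (Fin (d + 1))) w w = 0 := by
          rw [h0, LinearMap.zero_apply]
        exact inner_self_eq_zero.1 h1
      have hm := reg_m (innerₗ _) T c C (cos e) hC0 hTT hTm hcT hcc hnd
      apply radius_of_isLeast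
      · obtain ⟨b, hb0, hb1, hb2⟩ := reg_bary (innerₗ _) hd (by omega : 1 ≤ k + 1) (by omega)
          T c C (cos e) hC0 hTT hTm hcT hm J hJ
        refine ⟨∑ i ∈ J, b • T i, ⟨(hmem _).2 hb1, fun _ => b, fun _ => hb0.le, rfl⟩, ?_⟩
        change arccos (inner ℝ c (∑ i ∈ J, b • T i)) = _
        rw [← innerₗ_apply_apply, hb2]
      · rintro z ⟨hz, a, ha, rfl⟩
        change arccos _ ≤ arccos (inner ℝ c (∑ i ∈ J, a i • T i))
        apply Real.antitone_arccos
        exact reg_face_sph (innerₗ _) hd (by omega : 1 ≤ k + 1) (by omega) T c C (cos e) hC0 hTT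
          hTm hcT hm (Real.cos_le_one e) J hJ a ((hmem _).1 hz)
  · intro v hv hsub x hx ρ hdis
    have hvC : ∀ i, C ≤ inner ℝ c (v i) := by
      intro i
      obtain ⟨h0, h⟩ := hsub (vertex_mem _ hv i)
      change arccos (inner ℝ c (v i)) ≤ R at h
      obtain ⟨h1, h2⟩ := hbound c hc (v i) h0
      have := Real.cos_le_cos_of_nonneg_of_le_pi (Real.arccos_nonneg _) (by linarith) h
      rwa [Real.cos_arccos h1 h2] at this
    obtain ⟨hx0, α, hα, hxα⟩ := hx
    obtain ⟨J, hJ, β, hβ, hz1, hz2⟩ := sph_part1 (by omega : 1 ≤ k + 1)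
      (by omega : k + 1 ≤ d + 1) (by omega) c hcc C hC0 hC1.le v (fun i => (hmem _).1 (hv.mem i))
      hvC x ((hmem _).1 hx0) α hα hxα
    have hzc : (∑ i ∈ J, β i • v i) ∈ (sphericalSpace d).carrier := (hmem _).2 hz1
    have hskel : (∑ i ∈ J, β i • v i) ∈ skeleton (sphericalSpace d) v k :=
      ⟨J, hJ, hzc, β, hβ, rfl⟩
    have hnot : ¬ (sphericalSpace d).dist x (∑ i ∈ J, β i • v i) < ρ := fun h =>
      Set.disjoint_left.1 hdis ⟨hzc, h⟩ hskel
    rw [not_lt] at hnot
    refine hnot.trans ?_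
    change arccos (inner ℝ x (∑ i ∈ J, β i • v i)) ≤ _
    exact Real.antitone_arccos hz2

open Pool.Agent.H43.Skel in
theorem hyp_case {d k : ℕ} (hk : k < d) {R : ℝ} (hR0 : 0 < R)
    {c : ℝ × EuclideanSpace ℝ (Fin d)} (hc : c ∈ (hyperbolicSpace d).carrier) :
    IsSkeletonRadius (hyperbolicSpace d) d k c R (rHyp d k R) ∧
    SkeletonBoundHolds (hyperbolicSpace d) d k c R (rHyp d k R) := by
  have hd : 0 < d := by omega
  have hd' : (0 : ℝ) < d := by exact_mod_cast hd
  have hlor : ∀ x y : ℝ × EuclideanSpace ℝ (Fin d), lor x y = lorB d x y := fun x y => rfl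
  have hmem : ∀ x : ℝ × EuclideanSpace ℝ (Fin d), x ∈ (hyperbolicSpace d).carrier ↔
      0 < x.1 ∧ lorB d x x = 1 := fun x => Iff.rfl
  obtain ⟨hc0, hcc⟩ := (hmem c).1 hc
  have hge : ∀ x ∈ (hyperbolicSpace d).carrier, ∀ y ∈ (hyperbolicSpace d).carrier,
      1 ≤ lorB d x y := fun x hx y hy =>
    lorB_ge_one ((hmem x).1 hx).1 ((hmem x).1 hx).2 ((hmem y).1 hy).1 ((hmem y).1 hy).2
  set C := cosh R with hC
  have hC1 : 1 < C := Real.one_lt_cosh.2 hR0.ne'
  have hC0 : 0 < C := by linarith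
  have hr : rHyp d k R = arcosh (1 / √(tt ((d + 1 : ℕ) : ℝ) ((k + 1 : ℕ) : ℝ) C)) := by
    rw [rHyp, formula d k hC0, ← hC, Real.sinh_sq, ← hC]
    congr 3
    ring
  have htt : 0 < √(tt ((d + 1 : ℕ) : ℝ) ((k + 1 : ℕ) : ℝ) C) :=
    Real.sqrt_pos.2 (tt_pos (by omega) (by omega) (by omega) hC0)
  have hinv : 0 < 1 / √(tt ((d + 1 : ℕ) : ℝ) ((k + 1 : ℕ) : ℝ) C) := by positivity
  rw [hr]
  constructor
  · constructor
    · obtain ⟨T, hT0, hT1, hT2, hT3⟩ := hyp_exists_regular hd hc0 hcc hC1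
      refine ⟨T, ⟨⟨fun i => (hmem _).2 ⟨hT0 i, hT1 i⟩, ?_⟩, fun i => ?_,
        ⟨arcosh (((d + 1) * C ^ 2 - 1) / (d : ℝ)), fun i j hij => ?_⟩⟩⟩
      · apply reg_linearIndependent (lorB d) T (((d + 1) * C ^ 2 - 1) / (d : ℝ)) hT1 hT3
        · intro h
          rw [div_eq_iff hd'.ne'] at h
          have h1 : ((d : ℝ) + 1) * (C ^ 2 - 1) = 0 := by linarith
          have h2 : 0 < C ^ 2 - 1 := by nlinarith
          have h3 : 0 < ((d : ℝ) + 1) * (C ^ 2 - 1) := by positivity
          linarith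
        · have : 1 + (d : ℝ) * (((d + 1) * C ^ 2 - 1) / (d : ℝ)) = (d + 1) * C ^ 2 := by
            field_simp; ring
          rw [this]
          positivity
      · change arcosh (lor c (T i)) = R
        rw [hlor, hT2, hC]
        exact Real.arcosh_cosh hR0.le
      · change arcosh (lor (T i) (T j)) = _
        rw [hlor, hT3 i j hij]
    · rintro T ⟨⟨hT1, hT2⟩, hT3, e, hT4⟩ J hJ
      have hTT : ∀ i, lorB d (T i) (T i) = 1 := fun i => ((hmem _).1 (hT1 i)).2
      have hcT : ∀ i, lorB d c (T i) = C := by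
        intro i
        have h := hT3 i
        change arcosh (lorB d c (T i)) = R at h
        rw [hC, ← h, Real.cosh_arcosh (hge c hc (T i) (hT1 i))]
      have hTm : ∀ i j, i ≠ j → lorB d (T i) (T j) = cosh e := by
        intro i j hij
        have h := hT4 i j hij
        change arcosh (lorB d (T i) (T j)) = e at h
        rw [← h, Real.cosh_arcosh (hge (T i) (hT1 i) (T j) (hT1 j))]
      have hm := reg_m (lorB d) T c C (cosh e) hC0 hTT hTm hcT hcc (lorB_nd hT2)
      apply radius_of_isLeast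
      · obtain ⟨b, hb0, hb1, hb2⟩ := reg_bary (lorB d) hd (by omega : 1 ≤ k + 1) (by omega)
          T c C (cosh e) hC0 hTT hTm hcT hm J hJ
        have hpos : 0 < (∑ i ∈ J, b • T i).1 := by
          apply lorB_fst_pos hc0 hcc hb1
          rw [hb2]; exact hinv
        refine ⟨∑ i ∈ J, b • T i, ⟨(hmem _).2 ⟨hpos, hb1⟩, fun _ => b, fun _ => hb0.le, rfl⟩, ?_⟩
        change arcosh (lorB d c (∑ i ∈ J, b • T i)) = _
        rw [hb2]
      · rintro z ⟨hz, a, ha, rfl⟩
        change arcosh _ ≤ arcosh (lorB d c (∑ i ∈ J, a i • T i))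
        have h1 := hge c hc _ hz
        rw [Real.arcosh_le_arcosh hinv (by linarith)]
        exact reg_face_hyp (lorB d) hd (by omega : 1 ≤ k + 1) (by omega) T c C (cosh e) hC0 hTT
          hTm hcT hm (Real.one_le_cosh e) J hJ a ha ((hmem _).1 hz).2
  · intro v hv hsub x hx ρ hdis
    have hvC : ∀ i, lorB d c (v i) ≤ C := by
      intro i
      obtain ⟨h0, h⟩ := hsub (vertex_mem _ hv i)
      change arcosh (lorB d c (v i)) ≤ R at h
      have h1 := hge c hc (v i) h0
      rw [← Real.cosh_arcosh h1, hC]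
      apply Real.cosh_le_cosh.2
      rw [abs_of_nonneg (Real.arcosh_nonneg h1), abs_of_nonneg hR0.le]
      exact h
    obtain ⟨hx0, α, hα, hxα⟩ := hx
    have hxv : ∀ i, 0 < lorB d x (v i) := fun i => by
      have := hge x hx0 (v i) (hv.mem i)
      linarith
    obtain ⟨o, ho⟩ := lorB_repr hv.indep (fun i => 1 / lorB d x (v i) / 2)
    obtain ⟨J, hJ, β, hβ, -, hz1, hz2⟩ := hyp_part1 (lorB d) lorB_symm (by omega : 1 ≤ k + 1)
      (by omega : k + 1 ≤ d + 1) (by omega) c C hC0 v (fun i => ((hmem _).1 (hv.mem i)).2)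
      hvC x ((hmem _).1 hx0).2 (hge c hc x hx0) hxv o (fun i => by rw [ho i]; ring) α hα hxα
    have hpos0 : 0 ≤ lorB d x (∑ i ∈ J, β i • v i) := by
      rw [map_sum]
      apply Finset.sum_nonneg
      intro i _
      rw [map_smul, smul_eq_mul]
      exact mul_nonneg (hβ i) (hxv i).le
    have hfst : 0 < (∑ i ∈ J, β i • v i).1 := by
      rw [Prod.fst_sum]
      have hnn : ∀ i ∈ J, 0 ≤ (β i • v i).1 := fun i _ => by
        rw [Prod.smul_fst, smul_eq_mul]
        exact mul_nonneg (hβ i) ((hmem _).1 (hv.mem i)).1.le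
      rcases (Finset.sum_nonneg hnn).lt_or_eq with h | h
      · exact h
      · exfalso
        have h3 := (Finset.sum_eq_zero_iff_of_nonneg hnn).1 h.symm
        have h4 : ∑ i ∈ J, β i • v i = 0 := by
          apply Finset.sum_eq_zero
          intro i hi
          have h5 := h3 i hi
          rw [Prod.smul_fst, smul_eq_mul] at h5
          rcases mul_eq_zero.1 h5 with h6 | h6
          · rw [h6, zero_smul]
          · exact absurd h6 ((hmem _).1 (hv.mem i)).1.ne'
        rw [h4, map_zero] at hz1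
        simp at hz1
    have hzc : (∑ i ∈ J, β i • v i) ∈ (hyperbolicSpace d).carrier := (hmem _).2 ⟨hfst, hz1⟩
    have hskel : (∑ i ∈ J, β i • v i) ∈ skeleton (hyperbolicSpace d) v k :=
      ⟨J, hJ, hzc, β, hβ, rfl⟩
    have hnot : ¬ (hyperbolicSpace d).dist x (∑ i ∈ J, β i • v i) < ρ := fun h =>
      Set.disjoint_left.1 hdis ⟨hzc, h⟩ hskel
    rw [not_lt] at hnot
    refine hnot.trans ?_
    change arcosh (lorB d x (∑ i ∈ J, β i • v i)) ≤ _
    have h1 := hge x hx0 _ hzc
    rw [Real.arcosh_le_arcosh (by linarith) hinv]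
    exact hz2

/-- The skeleton bound holds in `S^d` and in `H^d`. -/
theorem result :
    (∀ d k : ℕ, k < d → ∀ R : ℝ, 0 < R → R < π / 2 → ∀ c ∈ (sphericalSpace d).carrier,
      IsSkeletonRadius (sphericalSpace d) d k c R (rSph d k R) ∧
      SkeletonBoundHolds (sphericalSpace d) d k c R (rSph d k R)) ∧
    (∀ d k : ℕ, k < d → ∀ R : ℝ, 0 < R → ∀ c ∈ (hyperbolicSpace d).carrier,
      IsSkeletonRadius (hyperbolicSpace d) d k c R (rHyp d k R) ∧
      SkeletonBoundHolds (hyperbolicSpace d) d k c R (rHyp d k R)) :=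
  ⟨fun _ _ hk _ hR0 hR1 _ hc => sph_case hk hR0 hR1 hc,
    fun _ _ hk _ hR0 _ hc => hyp_case hk hR0 hc⟩

end Pool.Agent.Results.MP_fc7dfc_gt.SkeletonBound
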